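import Mathlib
import Pool.Agent.MP_ae59d5_an.Sigma

set_option autoImplicit false

namespace Pool.Agent.Results.MP_ae59d5_an.Maximizers

open MeasureTheory Pool.Agent.MP_ae59d5_an

/-- The maximizers of the distance energy on the flat torus for every exponent `α ≥ 1`, and the
phase transition points. -/
theorem result :
    (∀ α : ℝ, 1 ≤ α → α < 2 → ∀ μ : Measure T2, IsMaximizer α μ ↔ ∃ p : T2, μ = eta p) ∧
    (∀ μ : Measure T2, IsMaximizer 2 μ ↔ ∃ (p : T2) (t : ℝ), 0 ≤ t ∧ t ≤ 1 ∧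
      μ = ENNReal.ofReal t • nu p + ENNReal.ofReal (1 - t) • nu (p + (half, 0))) ∧
    (∀ α : ℝ, 2 < α → ∀ μ : Measure T2, IsMaximizer α μ ↔ ∃ p : T2, μ = nu p) ∧
    (∀ α : ℝ, 0 < α → α < 1 → ∀ p : T2, ¬ IsMaximizer α (eta p)) ∧
    (∀ p : T2, {α : ℝ | 0 < α ∧ IsMaximizer α (nu p)} = Set.Ici 2) ∧
    {α : ℝ | 0 < α ∧ IsMaximizer α (volume : Measure T2)} = ∅ := by
  refine ⟨fun α h1 h2 μ => classify_lt_two h1 h2 μ, classify_two,
    fun α h μ => classify_gt_two h μ, fun α h0 h1 p => eta_not_max h0 h1 p, fun p => ?_, ?_⟩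
  · ext α
    constructor
    · rintro ⟨h0, h⟩
      exact (nu_max_iff p h0).1 h
    · intro h
      have h2 : (2 : ℝ) ≤ α := h
      exact ⟨by linarith, (nu_max_iff p (by linarith)).2 h2⟩
  · ext α
    constructor
    · rintro ⟨h0, h⟩
      exact vol_not_max h0 h
    · exact False.elim

end Pool.Agent.Results.MP_ae59d5_an.Maximizers
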